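import Mathlib

/-!
# Endomorphisms commuting with the Galois group and the trace form
-/

set_option autoImplicit false

noncomputable section

namespace Pool.Agent.N839.HG

open Polynomial

/-- the trace of an integral endomorphism is integral -/
lemma isIntegral_trace_end {A K V : Type*} [CommRing A] [Field K] [Algebra A K] [AddCommGroup V]
    [Module K V] [FiniteDimensional K V] (f : Module.End K V) (p : A[X]) (hp : p.Monic)
    (h0 : aeval f (p.map (algebraMap A K)) = 0) : IsIntegral A (LinearMap.trace K V f) := by
  classical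
  set b := Module.Free.chooseBasis K V
  set Ω := AlgebraicClosure K
  set M := LinearMap.toMatrixAlgEquiv b f with hM
  set MΩ : Matrix _ _ Ω := (algebraMap K Ω).mapMatrix M with hMΩ
  have htr : algebraMap K Ω (LinearMap.trace K V f) = MΩ.trace := by
    rw [LinearMap.trace_eq_matrix_trace K b, hMΩ, Matrix.trace, Matrix.trace, map_sum]
    rfl
  have hM0 : aeval M (p.map (algebraMap A K)) = 0 := by
    have := congrArg (LinearMap.toMatrixAlgEquiv b) h0
    rw [map_zero, ← AlgEquiv.coe_toAlgHom, ← Polynomial.aeval_algHom_apply] at this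
    exact this
  have hMΩ0 : aeval MΩ ((p.map (algebraMap A K)).map (algebraMap K Ω)) = 0 := by
    have := congrArg (algebraMap K Ω).mapMatrix hM0
    rw [map_zero, aeval_def, Polynomial.hom_eval₂] at this
    rw [aeval_def, Polynomial.eval₂_map, ← this]
    congr 1
    ext a i j
    by_cases hij : i = j
    · simp [Matrix.algebraMap_matrix_apply, hij]
    · simp [Matrix.algebraMap_matrix_apply, hij]
  set g : Module.End Ω (Module.Free.ChooseBasisIndex K V → Ω) := Matrix.toLinAlgEquiv' MΩ with hg
  have hg0 : aeval g ((p.map (algebraMap A K)).map (algebraMap K Ω)) = 0 := by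
    have := congrArg (Matrix.toLinAlgEquiv' (R := Ω)) hMΩ0
    rw [map_zero, ← AlgEquiv.coe_toAlgHom, ← Polynomial.aeval_algHom_apply] at this
    exact this
  have hroot : ∀ μ ∈ MΩ.charpoly.roots, IsIntegral A μ := by
    intro μ hμ
    have h1 : MΩ.charpoly.IsRoot μ := (mem_roots'.mp hμ).2
    have h2 : g.charpoly = MΩ.charpoly := by
      rw [hg]; exact Matrix.charpoly_toLin' MΩ
    have h3 : g.HasEigenvalue μ := by
      rw [Module.End.hasEigenvalue_iff_isRoot_charpoly, h2]; exact h1
    obtain ⟨v, hv⟩ := h3.exists_hasEigenvector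
    have h4 := Module.End.aeval_apply_of_hasEigenvector (p :=
      (p.map (algebraMap A K)).map (algebraMap K Ω)) hv
    rw [hg0, LinearMap.zero_apply] at h4
    have h5 := (smul_eq_zero.mp h4.symm).resolve_right hv.2
    refine ⟨p, hp, ?_⟩
    rw [Polynomial.map_map, eval_map] at h5
    rw [IsScalarTower.algebraMap_eq A K Ω]
    exact h5
  have : IsIntegral A (algebraMap K Ω (LinearMap.trace K V f)) := by
    rw [htr, Matrix.trace_eq_sum_roots_charpoly]
    exact IsIntegral.multiset_sum hroot
  exact (isIntegral_algebraMap_iff (algebraMap K Ω).injective).mp this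

section galois

variable {K L : Type*} [Field K] [Field L] [Algebra K L] [FiniteDimensional K L]

/-- `avg x z = (y ↦ ∑ g, g(x) Tr(z g⁻¹(y)))` -/
def avg (x z : L) : Module.End K L :=
  ∑ g : L ≃ₐ[K] L,
    (((Algebra.trace K L).comp (LinearMap.mulLeft K z)).comp
      (g⁻¹ : L ≃ₐ[K] L).toLinearMap).smulRight (g x)

lemma avg_apply (x z y : L) :
    avg (K := K) x z y = ∑ g : L ≃ₐ[K] L, algebraMap K L (Algebra.trace K L (z * g⁻¹ y)) * g x := by
  rw [avg, LinearMap.sum_apply]
  refine Finset.sum_congr rfl fun g _ => ?_
  rw [LinearMap.smulRight_apply, Algebra.smul_def]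
  rfl

lemma trace_comp_avg (γ : Module.End K L) (hγ : ∀ (g : L ≃ₐ[K] L) (y : L), γ (g y) = g (γ y))
    (x z : L) : LinearMap.trace K L (γ * avg x z) =
      (Fintype.card (L ≃ₐ[K] L) : K) * Algebra.trace K L (z * γ x) := by
  have : γ * avg x z = ∑ g : L ≃ₐ[K] L,
    (((Algebra.trace K L).comp (LinearMap.mulLeft K z)).comp
      (g⁻¹ : L ≃ₐ[K] L).toLinearMap).smulRight (g (γ x)) := by
    ext y
    rw [Module.End.mul_apply, avg, LinearMap.sum_apply, LinearMap.sum_apply, map_sum]
    refine Finset.sum_congr rfl fun g _ => ?_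
    rw [LinearMap.smulRight_apply, LinearMap.smulRight_apply, map_smul, hγ]
  rw [this, map_sum]
  simp_rw [LinearMap.trace_smulRight]
  have : ∀ g : L ≃ₐ[K] L, (((Algebra.trace K L).comp (LinearMap.mulLeft K z)).comp
      (g⁻¹ : L ≃ₐ[K] L).toLinearMap) (g (γ x)) = Algebra.trace K L (z * γ x) := by
    intro g
    simp
  simp_rw [this]
  simp

variable [IsGalois K L] {A : Type*} [CommRing A] [IsDedekindDomain A] [Algebra A K]
  [IsFractionRing A K] [Algebra A L] [IsScalarTower A K L]

/-- the double dual of the integral closure -/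
lemma isIntegral_of_trace (w : L)
    (h : ∀ z : L, (∀ y : L, IsIntegral A y → IsIntegral A (Algebra.trace K L (z * y))) →
      IsIntegral A (Algebra.trace K L (z * w))) : IsIntegral A w := by
  classical
  let B := integralClosure A L
  have : IsDedekindDomain B := integralClosure.isDedekindDomain A K L
  have : IsFractionRing B L := integralClosure.isFractionRing_of_finite_extension K L
  have hw : w ∈ FractionalIdeal.dual A K
      (FractionalIdeal.dual A K (1 : FractionalIdeal (nonZeroDivisors B) L)) := by
    rw [FractionalIdeal.mem_dual (FractionalIdeal.dual_ne_zero A K (one_ne_zero (α := FractionalIdeal (nonZeroDivisors B) L)))]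
    intro z hz
    rw [FractionalIdeal.mem_dual (one_ne_zero (α := FractionalIdeal (nonZeroDivisors B) L))] at hz
    apply IsIntegrallyClosed.isIntegral_iff.mp
    rw [Algebra.traceForm_apply, mul_comm]
    apply h
    intro y hy
    have := hz y ((FractionalIdeal.mem_one_iff _).mpr ⟨⟨y, hy⟩, rfl⟩)
    rw [Algebra.traceForm_apply] at this
    exact IsIntegrallyClosed.isIntegral_iff.mpr this
  rw [FractionalIdeal.dual_dual] at hw
  obtain ⟨b, hb⟩ := (FractionalIdeal.mem_one_iff _).mp hw
  rw [← hb]
  exact b.2

/-- The averages preserve the integral closure. -/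
lemma isIntegral_avg {x z : L} (hx : IsIntegral A x)
    (hz : ∀ y : L, IsIntegral A y → IsIntegral A (Algebra.trace K L (z * y))) {y : L}
    (hy : IsIntegral A y) : IsIntegral A (avg (K := K) x z y) := by
  rw [avg_apply]
  refine IsIntegral.sum _ fun g _ => IsIntegral.mul ?_ ?_
  · refine IsIntegral.algebraMap (hz _ ?_)
    exact hy.map ((g⁻¹ : L ≃ₐ[K] L).restrictScalars A)
  · exact hx.map (g.restrictScalars A)

/-- An endomorphism commuting with the Galois group preserves the integral closure as soon as the
traces of its products with averages are integral, if the order of the group is invertible. -/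
theorem preserves (γ : Module.End K L) (hγ : ∀ (g : L ≃ₐ[K] L) (y : L), γ (g y) = g (γ y))
    (hu : IsUnit ((Fintype.card (L ≃ₐ[K] L) : ℕ) : A)) {x : L}
    (h : ∀ z : L, (∀ y : L, IsIntegral A y → IsIntegral A (Algebra.trace K L (z * y))) →
      IsIntegral A (LinearMap.trace K L (γ * avg x z))) : IsIntegral A (γ x) := by
  refine isIntegral_of_trace (K := K) _ fun z hz => ?_
  have h1 := h z hz
  rw [trace_comp_avg γ hγ] at h1
  obtain ⟨v, hv⟩ := hu.exists_left_inv
  have h2 : Algebra.trace K L (z * γ x) = algebraMap A K v *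
      ((Fintype.card (L ≃ₐ[K] L) : K) * Algebra.trace K L (z * γ x)) := by
    rw [← mul_assoc, ← map_natCast (algebraMap A K), ← map_mul, hv, map_one, one_mul]
  rw [h2]
  exact isIntegral_algebraMap.mul h1

end galois

end Pool.Agent.N839.HG
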