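import Mathlib

/-!
# The canonical nonclassical Hopf-Galois structure: the definitions used in the statement
-/

set_option autoImplicit false

noncomputable section

namespace Pool.Agent.N839.HG.Stmt

/-- The ring of integers of a field `F` containing `ℚ_p`: the elements integral over `ℤ_p`. -/
def ringOfInts (p : ℕ) [Fact p.Prime] (F : Type*) [Field F] [Algebra ℚ_[p] F] : Subring F :=
  letI := ((algebraMap ℚ_[p] F).comp (algebraMap ℤ_[p] ℚ_[p])).toAlgebra
  (integralClosure ℤ_[p] F).toSubring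

/-- The left regular representation `λ : G → Perm(G)`, `λ(g)(h) = g h`. -/
def lam (G : Type*) [Group G] : G →* Equiv.Perm G := MulAction.toPermHom G G

/-- `N = λ(G) ⊆ Perm(G)`. -/
def lambdaG (G : Type*) [Group G] : Subgroup (Equiv.Perm G) := (lam G).range

/-- The conjugate `λ(g) n λ(g)⁻¹` of `n ∈ λ(G)`. -/
def conj {G : Type*} [Group G] (g : G) (n : lambdaG G) : lambdaG G :=
  ⟨lam G g * n * (lam G g)⁻¹,
    (lambdaG G).mul_mem ((lambdaG G).mul_mem ⟨g, rfl⟩ n.2) ((lambdaG G).inv_mem ⟨g, rfl⟩)⟩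

/-- The action of `g ∈ G` on `L[N]`, for a group `G` acting on the field `L`:
`g · ∑ c_n n = ∑ g(c_n) λ(g) n λ(g)⁻¹`. -/
def galAct {L G : Type*} [Field L] [Group G] [MulSemiringAction G L] (g : G)
    (h : MonoidAlgebra L (lambdaG G)) : MonoidAlgebra L (lambdaG G) :=
  h.coeff.sum fun n c => MonoidAlgebra.single (conj g n) (g • c)

/-- `H_λ = L[N]^G`. -/
def Hlambda (L G : Type*) [Field L] [Group G] [MulSemiringAction G L] :
    Set (MonoidAlgebra L (lambdaG G)) :=
  {h | ∀ g : G, galAct g h = h}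

/-- The action of `h = ∑ c_n n ∈ L[N]` on `x ∈ L`: `h · x = ∑ c_n (n⁻¹(1_G))(x)`. -/
def act {L G : Type*} [Field L] [Group G] [MulSemiringAction G L]
    (h : MonoidAlgebra L (lambdaG G)) (x : L) : L :=
  h.coeff.sum fun n c => c * (((n : Equiv.Perm G)⁻¹ 1 : G) • x)

/-- The associated order `𝔄_λ = {h ∈ H_λ : h · 𝔒_L ⊆ 𝔒_L}`. -/
def assocOrder (p : ℕ) [Fact p.Prime] (L G : Type*) [Field L] [Algebra ℚ_[p] L] [Group G]
    [MulSemiringAction G L] : Set (MonoidAlgebra L (lambdaG G)) :=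
  {h | h ∈ Hlambda L G ∧ ∀ x ∈ ringOfInts p L, act h x ∈ ringOfInts p L}

/-- For a subring `O` of `K` and a `K`-subspace `H`, closed under multiplication, of a `K`-algebra
`E`: the subset `A` is an `O`-order of `H`, that is, a subring (with `1`) contained in `H` that is a
finitely generated `O`-module and spans `H` over `K`. -/
structure IsOrder {K E : Type*} [Field K] [Ring E] [Algebra K E] (O : Subring K)
    (H A : Set E) : Prop where
  subset : A ⊆ H
  one_mem : (1 : E) ∈ A
  sub_mem : ∀ a ∈ A, ∀ b ∈ A, a - b ∈ A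
  mul_mem : ∀ a ∈ A, ∀ b ∈ A, a * b ∈ A
  smul_mem : ∀ c ∈ O, ∀ a ∈ A, c • a ∈ A
  fg : ∃ S : Set E, S.Finite ∧ S ⊆ A ∧ ∀ a ∈ A, a ∈ Submodule.span O S
  spans : ∀ h ∈ H, h ∈ Submodule.span K A

/-- `A` is a maximal `O`-order of `H`: an `O`-order of `H` such that no `O`-order of `H` properly
contains it. -/
def IsMaximalOrder {K E : Type*} [Field K] [Ring E] [Algebra K E] (O : Subring K)
    (H A : Set E) : Prop :=
  IsOrder O H A ∧ ∀ A' : Set E, IsOrder O H A' → A ⊆ A' → A' = A

end Pool.Agent.N839.HG.Stmt
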