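import Mathlib
import Pool.Agent.N839.HG.Stmt

/-!
# The canonical nonclassical Hopf-Galois structure: definitions
-/

set_option autoImplicit false

noncomputable section

namespace Pool.Agent.N839.HG

open Stmt (lambdaG ringOfInts)

section defs

/-- `λ(g)` as an element of `λ(G)`. -/
def lamE {G : Type*} [Group G] (g : G) : lambdaG G :=
  ⟨MulAction.toPermHom G G g, ⟨g, rfl⟩⟩

variable (K L : Type*) [Field K] [Field L] [Algebra K L]

/-- The action of `g ∈ G = Gal(L/K)` on `L[λ(G)]`: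
`g · ∑ c_n n = ∑ g(c_n) λ(g) n λ(g)⁻¹`. -/
def galAct (g : L ≃ₐ[K] L) (h : MonoidAlgebra L (lambdaG (L ≃ₐ[K] L))) :
    MonoidAlgebra L (lambdaG (L ≃ₐ[K] L)) :=
  Stmt.galAct g h

/-- The action of `h = ∑ c_n n ∈ L[λ(G)]` on `x ∈ L`: `h · x = ∑ c_n (n⁻¹(1_G))(x)`. -/
def act (h : MonoidAlgebra L (lambdaG (L ≃ₐ[K] L))) (x : L) : L :=
  Stmt.act h x

end defs

section basic

/-- `G ≃ λ(G)` -/
def lamEquiv (G : Type*) [Group G] : G ≃* lambdaG G :=
  MonoidHom.ofInjective (f := MulAction.toPermHom G G) (by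
    intro a b hab
    have := congrArg (fun f : Equiv.Perm G => f 1) hab
    simpa using this)

lemma lamEquiv_apply {G : Type*} [Group G] (g : G) : lamEquiv G g = lamE g := rfl

lemma lam_inv_one {G : Type*} [Group G] (g : G) : ((lamE g : Equiv.Perm G)⁻¹ 1) = g⁻¹ := by
  have : (lamE g : Equiv.Perm G)⁻¹ = MulAction.toPermHom G G g⁻¹ := by
    rw [map_inv]; rfl
  rw [this]; simp

lemma lam_mul {G : Type*} [Group G] (g h : G) : lamE (g * h) = lamE g * lamE h :=
  (lamEquiv G).map_mul g h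

lemma lam_inv {G : Type*} [Group G] (g : G) : lamE (g⁻¹) = (lamE g)⁻¹ :=
  (lamEquiv G).map_inv g

lemma lam_surj {G : Type*} [Group G] (n : lambdaG G) : ∃ g, lamE g = n :=
  (lamEquiv G).surjective n

lemma lam_inj {G : Type*} [Group G] {a b : G} (h : lamE a = lamE b) : a = b :=
  (lamEquiv G).injective h

variable {K L : Type*} [Field K] [Field L] [Algebra K L]

lemma galAct_coeff (g : L ≃ₐ[K] L) (h : MonoidAlgebra L (lambdaG (L ≃ₐ[K] L)))
    (n : lambdaG (L ≃ₐ[K] L)) :
    (galAct K L g h).coeff (lamE g * n * (lamE g)⁻¹) = g (h.coeff n) := by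
  classical
  have h0 : galAct K L g h = h.coeff.sum fun n c =>
      MonoidAlgebra.single (lamE g * n * (lamE g)⁻¹) (g c) := rfl
  rw [h0, MonoidAlgebra.coeff_finsuppSum, Finsupp.sum_apply, Finsupp.sum,
    Finset.sum_eq_single n]
  · simp
  · intro b _ hb
    rw [MonoidAlgebra.coeff_single, Finsupp.single_apply, if_neg]
    intro h'
    exact hb (by simpa using h')
  · intro hn
    rw [MonoidAlgebra.coeff_single, Finsupp.single_apply, if_pos rfl,
      Finsupp.notMem_support_iff.mp hn, map_zero]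

lemma galAct_eq_iff (h : MonoidAlgebra L (lambdaG (L ≃ₐ[K] L))) :
    (∀ g, galAct K L g h = h) ↔
      ∀ g k : L ≃ₐ[K] L, g (h.coeff (lamE k)) = h.coeff (lamE (g * k * g⁻¹)) := by
  constructor
  · intro H g k
    rw [← galAct_coeff, H, lam_mul, lam_mul, lam_inv]
  · intro H g
    ext n
    obtain ⟨m, hm⟩ := lam_surj ((lamE g)⁻¹ * n * lamE g)
    have hn : n = lamE g * lamE m * (lamE g)⁻¹ := by rw [hm]; group
    rw [hn, galAct_coeff, H, lam_mul, lam_mul, lam_inv]

end basic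

section Hlam

variable (K L : Type*) [Field K] [Field L] [Algebra K L] [FiniteDimensional K L]

variable {K L} in
lemma fixed_mul {a b : MonoidAlgebra L (lambdaG (L ≃ₐ[K] L))}
    (ha : ∀ g : L ≃ₐ[K] L, galAct K L g a = a) (hb : ∀ g : L ≃ₐ[K] L, galAct K L g b = b) :
    ∀ g : L ≃ₐ[K] L, galAct K L g (a * b) = a * b := by
  classical
  have : Fintype (L ≃ₐ[K] L) := inferInstance
  rw [galAct_eq_iff] at *
  have key : ∀ m, (a * b).coeff (lamE m) =
      ∑ k : L ≃ₐ[K] L, a.coeff (lamE k) * b.coeff (lamE (k⁻¹ * m)) := by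
    intro m
    rw [MonoidAlgebra.coeff_mul_apply_left, Finsupp.sum_of_support_subset (s :=
      Finset.univ.map (lamEquiv (L ≃ₐ[K] L)).toEquiv.toEmbedding) _ (by
        intro n _
        obtain ⟨g, rfl⟩ := lam_surj n
        exact Finset.mem_map.mpr ⟨g, Finset.mem_univ _, rfl⟩) _ (by simp), Finset.sum_map]
    refine Finset.sum_congr rfl fun k _ => ?_
    change a.coeff (lamE k) * b.coeff ((lamE k)⁻¹ * lamE m) = _
    rw [lam_mul, lam_inv]
  intro g k
  rw [key, key, map_sum]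
  refine Fintype.sum_equiv (MulAut.conj g).toEquiv _ _ fun m => ?_
  rw [map_mul, ha, hb]
  congr 3
  simp only [MulEquiv.toEquiv_eq_coe, EquivLike.coe_coe, MulAut.conj_apply]
  group

variable {K L} in
omit [FiniteDimensional K L] in
lemma fixed_add {a b : MonoidAlgebra L (lambdaG (L ≃ₐ[K] L))}
    (ha : ∀ g : L ≃ₐ[K] L, galAct K L g a = a) (hb : ∀ g : L ≃ₐ[K] L, galAct K L g b = b) :
    ∀ g : L ≃ₐ[K] L, galAct K L g (a + b) = a + b := by
  rw [galAct_eq_iff] at *
  intro g k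
  simp [ha g k, hb g k]

omit [FiniteDimensional K L] in
lemma fixed_algebraMap (r : K) :
    ∀ g : L ≃ₐ[K] L, galAct K L g (algebraMap K _ r) = algebraMap K _ r := by
  classical
  rw [galAct_eq_iff]
  intro g k
  have h1 : (1 : lambdaG (L ≃ₐ[K] L)) = lamE 1 := ((lamEquiv (L ≃ₐ[K] L)).map_one).symm
  rw [MonoidAlgebra.coe_algebraMap, Function.comp_apply, MonoidAlgebra.coeff_single,
    Finsupp.single_apply, Finsupp.single_apply, h1]
  by_cases hk : k = 1
  · subst hk
    simp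
  · rw [if_neg (fun h => hk (lam_inj h).symm), if_neg, map_zero]
    intro h
    apply hk
    have := lam_inj h
    rwa [eq_comm, conj_eq_one_iff] at this

/-- `H_λ = L[λ(G)]^G`, a `K`-subalgebra of `L[λ(G)]`. -/
def Hlambda : Subalgebra K (MonoidAlgebra L (lambdaG (L ≃ₐ[K] L))) where
  carrier := {h | ∀ g : L ≃ₐ[K] L, galAct K L g h = h}
  mul_mem' := fixed_mul
  add_mem' := fixed_add
  algebraMap_mem' := fixed_algebraMap K L

variable {K L}

lemma sum_lam {M : Type*} [AddCommMonoid M] (h : MonoidAlgebra L (lambdaG (L ≃ₐ[K] L)))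
    (f : lambdaG (L ≃ₐ[K] L) → L → M) (hf : ∀ n, f n 0 = 0) :
    h.coeff.sum f = ∑ g : L ≃ₐ[K] L, f (lamE g) (h.coeff (lamE g)) := by
  classical
  rw [Finsupp.sum_of_support_subset (s :=
    Finset.univ.map (lamEquiv (L ≃ₐ[K] L)).toEquiv.toEmbedding) _ (by
      intro n _
      obtain ⟨g, rfl⟩ := lam_surj n
      exact Finset.mem_map.mpr ⟨g, Finset.mem_univ _, rfl⟩) _ (fun n _ => hf n), Finset.sum_map]
  rfl

lemma act_eq (h : MonoidAlgebra L (lambdaG (L ≃ₐ[K] L))) (x : L) :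
    act K L h x = ∑ g : L ≃ₐ[K] L, h.coeff (lamE g) * g⁻¹ x := by
  have h0 : act K L h x = h.coeff.sum fun n c =>
      c * ((n : Equiv.Perm (L ≃ₐ[K] L))⁻¹ 1) x := rfl
  rw [h0, sum_lam _ _ (by simp)]
  exact Finset.sum_congr rfl fun g _ => by rw [lam_inv_one]

lemma mul_coeff (a b : MonoidAlgebra L (lambdaG (L ≃ₐ[K] L))) (m : L ≃ₐ[K] L) :
    (a * b).coeff (lamE m) = ∑ k : L ≃ₐ[K] L, a.coeff (lamE k) * b.coeff (lamE (k⁻¹ * m)) := by
  rw [MonoidAlgebra.coeff_mul_apply_left, sum_lam _ _ (by simp)]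
  exact Finset.sum_congr rfl fun g _ => by rw [lam_mul, lam_inv]

lemma mem_Hlambda {h : MonoidAlgebra L (lambdaG (L ≃ₐ[K] L))} : h ∈ Hlambda K L ↔
    ∀ g k : L ≃ₐ[K] L, g (h.coeff (lamE k)) = h.coeff (lamE (g * k * g⁻¹)) :=
  galAct_eq_iff h

lemma act_mul (a : MonoidAlgebra L (lambdaG (L ≃ₐ[K] L)))
    {b : MonoidAlgebra L (lambdaG (L ≃ₐ[K] L))} (hb : b ∈ Hlambda K L) (x : L) :
    act K L (a * b) x = act K L a (act K L b x) := by
  rw [mem_Hlambda] at hb
  simp_rw [act_eq, mul_coeff, map_sum, map_mul, Finset.mul_sum, Finset.sum_mul]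
  rw [Finset.sum_comm]
  refine Finset.sum_congr rfl fun g _ => ?_
  refine Fintype.sum_equiv ((Equiv.mulLeft g⁻¹).trans (MulAut.conj g).toEquiv) _ _ fun m => ?_
  simp only [Equiv.trans_apply, Equiv.coe_mulLeft, MulEquiv.toEquiv_eq_coe, EquivLike.coe_coe,
    MulAut.conj_apply]
  rw [hb, mul_assoc]
  congr 2
  · congr 2
    group
  · rw [← AlgEquiv.mul_apply]
    congr 1
    group

lemma act_add (a b : MonoidAlgebra L (lambdaG (L ≃ₐ[K] L))) (x : L) :
    act K L (a + b) x = act K L a x + act K L b x := by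
  simp_rw [act_eq, ← Finset.sum_add_distrib]
  exact Finset.sum_congr rfl fun g _ => by simp [add_mul]

lemma act_neg (a : MonoidAlgebra L (lambdaG (L ≃ₐ[K] L))) (x : L) :
    act K L (-a) x = - act K L a x := by
  simp_rw [act_eq, ← Finset.sum_neg_distrib]
  exact Finset.sum_congr rfl fun g _ => by simp

lemma act_smul (c : K) (a : MonoidAlgebra L (lambdaG (L ≃ₐ[K] L))) (x : L) :
    act K L (c • a) x = c • act K L a x := by
  simp_rw [act_eq, Finset.smul_sum]
  exact Finset.sum_congr rfl fun g _ => by simp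

lemma act_one (x : L) : act K L (1 : MonoidAlgebra L (lambdaG (L ≃ₐ[K] L))) x = x := by
  classical
  have h1 : (1 : lambdaG (L ≃ₐ[K] L)) = lamE 1 := ((lamEquiv (L ≃ₐ[K] L)).map_one).symm
  rw [act_eq, Finset.sum_eq_single 1]
  · rw [← h1, MonoidAlgebra.coeff_one_one]
    simp
  · intro g _ hg
    rw [MonoidAlgebra.one_def, MonoidAlgebra.coeff_single, Finsupp.single_apply, if_neg, zero_mul]
    rw [h1]
    intro h
    exact hg (lam_inj h).symm
  · simp

lemma act_zero (x : L) : act K L (0 : MonoidAlgebra L (lambdaG (L ≃ₐ[K] L))) x = 0 := by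
  simp [act_eq]

end Hlam

section main

variable (p : ℕ) [Fact p.Prime] (K L : Type*) [Field K] [Field L]
  [Algebra ℚ_[p] L] [Algebra K L] [FiniteDimensional K L]

variable {p K L}

lemma preserves_mul {a b : Hlambda K L}
    (ha : ∀ x ∈ ringOfInts p L, act K L a x ∈ ringOfInts p L)
    (hb : ∀ x ∈ ringOfInts p L, act K L b x ∈ ringOfInts p L) :
    ∀ x ∈ ringOfInts p L, act K L ((a * b : Hlambda K L) : MonoidAlgebra L _) x ∈
      ringOfInts p L := by
  intro x hx
  rw [Subalgebra.coe_mul, act_mul _ b.2]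
  exact ha _ (hb _ hx)

lemma preserves_one :
    ∀ x ∈ ringOfInts p L, act K L ((1 : Hlambda K L) : MonoidAlgebra L _) x ∈
      ringOfInts p L := by
  intro x hx
  rw [Subalgebra.coe_one, act_one]
  exact hx

lemma preserves_add {a b : Hlambda K L}
    (ha : ∀ x ∈ ringOfInts p L, act K L a x ∈ ringOfInts p L)
    (hb : ∀ x ∈ ringOfInts p L, act K L b x ∈ ringOfInts p L) :
    ∀ x ∈ ringOfInts p L, act K L ((a + b : Hlambda K L) : MonoidAlgebra L _) x ∈
      ringOfInts p L := by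
  intro x hx
  rw [Subalgebra.coe_add, act_add]
  exact add_mem (ha _ hx) (hb _ hx)

lemma preserves_zero :
    ∀ x ∈ ringOfInts p L, act K L ((0 : Hlambda K L) : MonoidAlgebra L _) x ∈
      ringOfInts p L := by
  intro x _
  rw [Subalgebra.coe_zero, act_zero]
  exact zero_mem _

lemma preserves_neg {a : Hlambda K L}
    (ha : ∀ x ∈ ringOfInts p L, act K L a x ∈ ringOfInts p L) :
    ∀ x ∈ ringOfInts p L, act K L ((-a : Hlambda K L) : MonoidAlgebra L _) x ∈
      ringOfInts p L := by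
  intro x hx
  rw [Subalgebra.coe_neg, act_neg]
  exact neg_mem (ha _ hx)

variable (p K L)

/-- The associated order `𝔄_λ = {h ∈ H_λ : h · 𝔒_L ⊆ 𝔒_L}` of `𝔒_L` in `H_λ`. -/
def assocOrder : Subring (Hlambda K L) where
  carrier := {h | ∀ x ∈ ringOfInts p L, act K L h x ∈ ringOfInts p L}
  mul_mem' := preserves_mul
  one_mem' := preserves_one
  add_mem' := preserves_add
  zero_mem' := preserves_zero
  neg_mem' := preserves_neg

end main

/-- For a subring `O` of the field `K`, `Γ` is an `O`-order of the `K`-algebra `H`: a subring (with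
`1`) which is a finitely generated `O`-module and spans `H` over `K`. -/
structure IsOrder {K H : Type*} [Field K] [Ring H] [Algebra K H] (O : Subring K)
    (Γ : Subring H) : Prop where
  smul_mem : ∀ c ∈ O, ∀ a ∈ Γ, c • a ∈ Γ
  fg : ∃ S : Set H, S.Finite ∧ S ⊆ Γ ∧ ∀ a ∈ Γ, a ∈ Submodule.span O S
  span_eq_top : Submodule.span K (Γ : Set H) = ⊤

/-- `Γ` is a maximal `O`-order of `H`: no `O`-order of `H` properly contains it. -/
structure IsMaximalOrder {K H : Type*} [Field K] [Ring H] [Algebra K H] (O : Subring K)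
    (Γ : Subring H) : Prop where
  isOrder : IsOrder O Γ
  eq_of_le : ∀ Γ' : Subring H, IsOrder O Γ' → Γ ≤ Γ' → Γ' = Γ

end Pool.Agent.N839.HG
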