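import Mathlib
import Pool.Agent.N839.HG.Comm
import Pool.Agent.N839.HG.Defs

/-!
# The associated order in the canonical nonclassical Hopf-Galois structure is maximal: the proof
-/

set_option autoImplicit false

noncomputable section

namespace Pool.Agent.N839.HG

open Stmt (lambdaG ringOfInts)

section proof

open Polynomial

variable {K L : Type*} [Field K] [Field L] [Algebra K L] [FiniteDimensional K L]

/-- the action as an endomorphism -/
def actEnd (h : MonoidAlgebra L (lambdaG (L ≃ₐ[K] L))) : Module.End K L where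
  toFun := act K L h
  map_add' x y := by simp [act_eq, mul_add, Finset.sum_add_distrib]
  map_smul' c x := by simp [act_eq, Finset.smul_sum]

/-- the action of `H_λ` on `L` as a homomorphism of algebras -/
def actHom : Hlambda K L →ₐ[K] Module.End K L :=
  AlgHom.ofLinearMap
    { toFun := fun h => actEnd h.1
      map_add' := fun a b => LinearMap.ext fun x => act_add a.1 b.1 x
      map_smul' := fun c a => LinearMap.ext fun x => act_smul c a.1 x }
    (LinearMap.ext fun x => act_one x)
    (fun a b => LinearMap.ext fun x => act_mul a.1 b.2 x)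

lemma actHom_apply (h : Hlambda K L) (x : L) : actHom h x = act K L h.1 x := rfl

lemma actHom_injective : Function.Injective (actHom (K := K) (L := L)) := by
  rw [injective_iff_map_eq_zero]
  intro a ha
  have hli := linearIndependent_monoidHom L L
  have h0 : ∀ g : L ≃ₐ[K] L, a.1.coeff (lamE g) = 0 := by
    have hli2 := hli.comp (fun g : L ≃ₐ[K] L => ((g⁻¹ : L ≃ₐ[K] L) : L →* L)) (by
      intro g h hgh
      apply inv_injective
      ext x
      exact congrArg (fun f : L →* L => f x) hgh)
    rw [Fintype.linearIndependent_iff] at hli2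
    apply hli2
    ext x
    have := congrArg (fun f : Module.End K L => f x) ha
    simp only [actHom_apply, act_eq, LinearMap.zero_apply] at this
    simpa using this
  apply Subtype.ext
  ext n
  obtain ⟨g, rfl⟩ := lam_surj n
  exact h0 g

lemma actHom_comm (h : Hlambda K L) (g : L ≃ₐ[K] L) (y : L) :
    actHom h (g y) = g (actHom h y) := by
  have hh := mem_Hlambda.mp h.2
  rw [actHom_apply, actHom_apply, act_eq, act_eq, map_sum]
  symm
  refine Fintype.sum_equiv (MulAut.conj g).toEquiv _ _ fun m => ?_
  simp only [MulEquiv.toEquiv_eq_coe, EquivLike.coe_coe, MulAut.conj_apply]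
  rw [map_mul, hh]
  congr 1
  rw [← AlgEquiv.mul_apply, ← AlgEquiv.mul_apply]
  congr 1
  group

/-- the element of `H_λ` acting as `avg x z` -/
def avgElt (x z : L) : MonoidAlgebra L (lambdaG (L ≃ₐ[K] L)) :=
  MonoidAlgebra.ofCoeff (Finsupp.equivFunOnFinite.symm fun n =>
    ∑ g : L ≃ₐ[K] L, g x * (((lamEquiv (L ≃ₐ[K] L)).symm n)⁻¹ * g) z)

lemma avgElt_coeff (x z : L) (m : L ≃ₐ[K] L) :
    (avgElt x z).coeff (lamE m) = ∑ g : L ≃ₐ[K] L, g x * (m⁻¹ * g) z := by
  rw [avgElt, MonoidAlgebra.coeff_ofCoeff, Finsupp.coe_equivFunOnFinite_symm, ← lamEquiv_apply,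
    MulEquiv.symm_apply_apply]

lemma avgElt_mem (x z : L) : avgElt x z ∈ Hlambda K L := by
  rw [mem_Hlambda]
  intro g k
  rw [avgElt_coeff, avgElt_coeff, map_sum]
  refine Fintype.sum_equiv (Equiv.mulLeft g) _ _ fun m => ?_
  simp only [Equiv.coe_mulLeft]
  rw [map_mul, ← AlgEquiv.mul_apply, ← AlgEquiv.mul_apply]
  congr 2
  group

lemma actHom_avgElt [IsGalois K L] (x z : L) :
    actHom ⟨avgElt x z, avgElt_mem x z⟩ = avg (K := K) x z := by
  ext y
  rw [actHom_apply, act_eq, avg_apply]
  simp_rw [avgElt_coeff, Finset.sum_mul]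
  rw [Finset.sum_comm]
  refine Finset.sum_congr rfl fun g _ => ?_
  have : algebraMap K L (Algebra.trace K L (z * g⁻¹ y)) =
      algebraMap K L (Algebra.trace K L (g z * y)) := by
    congr 1
    rw [← Algebra.trace_eq_of_algEquiv g (z * g⁻¹ y), map_mul, ← AlgEquiv.mul_apply,
      mul_inv_cancel, AlgEquiv.one_apply]
  rw [this, trace_eq_sum_automorphisms, Finset.sum_mul]
  refine Fintype.sum_equiv (Equiv.inv _) _ _ fun m => ?_
  simp only [Equiv.inv_apply, map_mul, AlgEquiv.mul_apply]
  ring

variable [IsGalois K L] (O : Subring K) [IsDedekindDomain O] [IsFractionRing O K]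

/-- the associated order, with integrality over `O` -/
def ordO : Subring (Hlambda K L) where
  carrier := {h | ∀ x, IsIntegral O x → IsIntegral O (actHom h x)}
  mul_mem' := by
    intro a b ha hb x hx
    rw [map_mul]
    exact ha _ (hb _ hx)
  one_mem' := by
    intro x hx
    rw [map_one]
    exact hx
  add_mem' := by
    intro a b ha hb x hx
    rw [map_add]
    exact (ha _ hx).add (hb _ hx)
  zero_mem' := by
    intro x _
    rw [map_zero]
    exact isIntegral_zero
  neg_mem' := by
    intro a ha x hx
    rw [map_neg]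
    exact (ha _ hx).neg

omit [IsGalois K L] [IsDedekindDomain O] [IsFractionRing O K] in
lemma mem_ordO {h : Hlambda K L} :
    h ∈ ordO O ↔ ∀ x, IsIntegral O x → IsIntegral O (actHom h x) := Iff.rfl

lemma isOrder_ordO : IsOrder O (ordO (L := L) O) := by
  classical
  have hfin : Module.Finite O (integralClosure O L) :=
    IsIntegralClosure.finite O K L (integralClosure O L)
  have hnoeth : IsNoetherian O (integralClosure O L) :=
    IsIntegralClosure.isNoetherian O K L (integralClosure O L)
  obtain ⟨n, s, hs⟩ := Module.Finite.exists_fin (R := O) (M := integralClosure O L)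
  have hext : ∀ x : L, ∃ r : O, r ≠ 0 ∧ IsIntegral O (r • x) := by
    intro x
    obtain ⟨r, hr, h⟩ := exists_integral_multiples O K ({x} : Finset L)
    exact ⟨r, hr, h x (Finset.mem_singleton_self x)⟩
  have hgen : ∀ f : Module.End K L, ∀ (P : Submodule O L), (∀ i, f (s i) ∈ P) →
      ∀ x, IsIntegral O x → f x ∈ P := by
    intro f P hf x hx
    have : (⟨x, hx⟩ : integralClosure O L) ∈ Submodule.span O (Set.range s) := by
      rw [hs]; trivial
    let F : integralClosure O L →ₗ[O] L :=
      (f.restrictScalars O).comp (integralClosure O L).val.toLinearMap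
    have h2 : Submodule.span O (Set.range s) ≤ P.comap F := by
      rw [Submodule.span_le]
      rintro _ ⟨i, rfl⟩
      exact hf i
    exact h2 this
  refine ⟨?_, ?_, ?_⟩
  · intro c hc a ha x hx
    rw [map_smul]
    have : c • actHom a x = (⟨c, hc⟩ : O) • actHom a x := rfl
    rw [LinearMap.smul_apply, this]
    exact (ha x hx).smul _
  · let M : Submodule O (Hlambda K L) :=
      { carrier := ordO (L := L) O
        add_mem' := fun ha hb => add_mem ha hb
        zero_mem' := zero_mem _
        smul_mem' := fun c a ha x hx => by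
          have h1 : actHom (c • a) x = c • actHom a x := by
            change actHom ((c : K) • a) x = (c : K) • actHom a x
            rw [map_smul]; rfl
          rw [h1]
          exact (ha x hx).smul _ }
    let F : M →ₗ[O] (Fin n → integralClosure O L) :=
      { toFun := fun h i => ⟨actHom h.1 (s i), h.2 _ (s i).2⟩
        map_add' := fun a b => by
          ext i
          simp
        map_smul' := fun c a => by
          ext i
          have h1 : actHom (c • a.1) (s i) = c • actHom a.1 (s i) := by
            change actHom ((c : K) • a.1) (s i) = (c : K) • actHom a.1 (s i)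
            rw [map_smul]; rfl
          exact h1 }
    have hF : Function.Injective F := by
      rw [injective_iff_map_eq_zero]
      intro a ha
      have h1 : ∀ i, actHom a.1 (s i) ∈ (⊥ : Submodule O L) := by
        intro i
        rw [Submodule.mem_bot]
        exact congrArg Subtype.val (congrFun ha i)
      have h2 := hgen _ _ h1
      apply Subtype.ext
      apply actHom_injective
      rw [ZeroMemClass.coe_zero, map_zero]
      ext x
      obtain ⟨r, hr, hx⟩ := hext x
      have h3 := h2 _ hx
      rw [Submodule.mem_bot] at h3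
      have h4 : actHom a.1 (r • x) = (r : K) • actHom a.1 x := map_smul _ (r : K) x
      rw [h4, smul_eq_zero] at h3
      refine h3.resolve_left ?_
      simpa using hr
    have : IsNoetherian O M := isNoetherian_of_injective F hF
    have hfg : M.FG := (Submodule.fg_top _).mp (this.noetherian ⊤)
    obtain ⟨S, hSfin, hS⟩ := Submodule.fg_def.mp hfg
    refine ⟨S, hSfin, ?_, ?_⟩
    · intro a ha
      have : a ∈ M := hS ▸ Submodule.subset_span ha
      exact this
    · intro a ha
      rw [hS]
      exact ha
  · rw [eq_top_iff]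
    intro h _
    obtain ⟨r, hr, hrs⟩ := exists_integral_multiples O K
      (Finset.univ.image fun i => actHom h (s i : L))
    have hmem : (r : K) • h ∈ ordO (L := L) O := by
      intro x hx
      have := hgen (actHom ((r : K) • h)) (Subalgebra.toSubmodule (integralClosure O L)) (by
        intro i
        have := hrs _ (Finset.mem_image_of_mem _ (Finset.mem_univ i))
        rw [map_smul]
        exact this) x hx
      exact this
    have hr0 : (r : K) ≠ 0 := by simpa using hr
    have : h = (r : K)⁻¹ • ((r : K) • h) := by rw [smul_smul, inv_mul_cancel₀ hr0, one_smul]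
    rw [this]
    exact Submodule.smul_mem _ _ (Submodule.subset_span hmem)

theorem isMaximalOrder_ordO (hu : IsUnit ((Fintype.card (L ≃ₐ[K] L) : ℕ) : O)) :
    IsMaximalOrder O (ordO (L := L) O) := by
  refine ⟨isOrder_ordO O, ?_⟩
  intro Γ hΓ hle
  refine le_antisymm ?_ hle
  intro γ hγ x hx
  refine preserves (A := O) (actHom γ) (actHom_comm γ) hu fun z hz => ?_
  rw [← actHom_avgElt, ← map_mul]
  have hmem : γ * ⟨avgElt x z, avgElt_mem x z⟩ ∈ Γ := by
    refine mul_mem hγ (hle ?_)
    intro y hy
    rw [actHom_avgElt]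
    exact isIntegral_avg hx hz hy
  let S : Subalgebra O (Hlambda K L) :=
    { Γ with
      algebraMap_mem' := fun r => by
        have := hΓ.smul_mem r.1 r.2 1 Γ.one_mem
        rw [← Algebra.algebraMap_eq_smul_one] at this
        exact this }
  have hfg : (Subalgebra.toSubmodule S).FG := by
    obtain ⟨T, hT, hTΓ, hΓT⟩ := hΓ.fg
    refine Submodule.fg_def.mpr ⟨T, hT, le_antisymm ?_ ?_⟩
    · rw [Submodule.span_le]
      exact hTΓ
    · intro a ha
      exact hΓT a ha
  obtain ⟨q, hq, hq0⟩ := IsIntegral.of_mem_of_fg S hfg _ hmem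
  refine isIntegral_trace_end _ q hq ?_
  have h1 : aeval (γ * ⟨avgElt x z, avgElt_mem x z⟩) (q.map (algebraMap O K)) = 0 := by
    rw [aeval_map_algebraMap]
    exact hq0
  rw [aeval_algHom_apply, h1, map_zero]

end proof

section final

/-- comparison of the two notions of integrality -/
lemma isIntegral_toSubring_iff {R K L : Type*} [CommRing R] [Field K] [Field L] [Algebra R K]
    [Algebra R L] [Algebra K L] [IsScalarTower R K L] (x : L) :
    IsIntegral (integralClosure R K).toSubring x ↔ IsIntegral R x := by
  constructor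
  · intro hx
    have : IsIntegral (integralClosure R K) x := hx
    exact isIntegral_trans x this
  · intro hx
    have : IsIntegral (integralClosure R K) x := hx.tower_top
    exact this

variable (p : ℕ) [Fact p.Prime]

lemma mem_ringOfInts_iff (K L : Type*) [Field K] [Field L] [Algebra ℚ_[p] K] [Algebra ℚ_[p] L]
    [Algebra K L] [IsScalarTower ℚ_[p] K L] (x : L) :
    x ∈ ringOfInts p L ↔ IsIntegral (ringOfInts p K) x := by
  let : Algebra ℤ_[p] K := ((algebraMap ℚ_[p] K).comp (algebraMap ℤ_[p] ℚ_[p])).toAlgebra
  let : Algebra ℤ_[p] L := ((algebraMap ℚ_[p] L).comp (algebraMap ℤ_[p] ℚ_[p])).toAlgebra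
  have hst : IsScalarTower ℤ_[p] K L := IsScalarTower.of_algebraMap_eq fun y => by
    change algebraMap ℚ_[p] L (algebraMap ℤ_[p] ℚ_[p] y) =
      algebraMap K L (algebraMap ℚ_[p] K (algebraMap ℤ_[p] ℚ_[p] y))
    rw [← IsScalarTower.algebraMap_apply ℚ_[p] K L]
  exact (isIntegral_toSubring_iff (R := ℤ_[p]) (K := K) x).symm

lemma isDedekindDomain_ringOfInts (K : Type*) [Field K] [Algebra ℚ_[p] K]
    [FiniteDimensional ℚ_[p] K] : IsDedekindDomain (ringOfInts p K) := by
  let : Algebra ℤ_[p] K := ((algebraMap ℚ_[p] K).comp (algebraMap ℤ_[p] ℚ_[p])).toAlgebra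
  have hst : IsScalarTower ℤ_[p] ℚ_[p] K := IsScalarTower.of_algebraMap_eq fun y => rfl
  exact (integralClosure.isDedekindDomain ℤ_[p] ℚ_[p] K :
    IsDedekindDomain (integralClosure ℤ_[p] K))

lemma isFractionRing_ringOfInts (K : Type*) [Field K] [Algebra ℚ_[p] K]
    [FiniteDimensional ℚ_[p] K] : IsFractionRing (ringOfInts p K) K := by
  let : Algebra ℤ_[p] K := ((algebraMap ℚ_[p] K).comp (algebraMap ℤ_[p] ℚ_[p])).toAlgebra
  have hst : IsScalarTower ℤ_[p] ℚ_[p] K := IsScalarTower.of_algebraMap_eq fun y => rfl
  exact (integralClosure.isFractionRing_of_finite_extension ℚ_[p] K :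
    IsFractionRing (integralClosure ℤ_[p] K) K)

lemma isUnit_natCast (K : Type*) [Field K] [Algebra ℚ_[p] K] {n : ℕ} (hn : ¬ p ∣ n) :
    IsUnit ((n : ℕ) : ringOfInts p K) := by
  have h1 : IsUnit (n : ℤ_[p]) := by
    rw [PadicInt.isUnit_iff, PadicInt.norm_natCast_eq_one_iff]
    exact (Nat.coprime_comm.mp ((Nat.Prime.coprime_iff_not_dvd (Fact.out : p.Prime)).mpr hn)).symm
  let : Algebra ℤ_[p] K := ((algebraMap ℚ_[p] K).comp (algebraMap ℤ_[p] ℚ_[p])).toAlgebra
  have h2 := h1.map (algebraMap ℤ_[p] (integralClosure ℤ_[p] K))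
  rw [map_natCast] at h2
  exact h2

end final

/-- **The associated order of the canonical nonclassical Hopf-Galois structure is maximal.**
Let `L/K` be a Galois extension of `p`-adic fields with `p ∤ [L:K]`.  Then the associated order
`𝔄_λ` of `𝔒_L` in `H_λ` is a maximal `𝔒_K`-order of `H_λ`. -/
theorem main (p : ℕ) [Fact p.Prime] (K L : Type*) [Field K] [Field L]
    [Algebra ℚ_[p] K] [FiniteDimensional ℚ_[p] K]
    [Algebra ℚ_[p] L] [Algebra K L] [IsScalarTower ℚ_[p] K L] [FiniteDimensional K L]
    [IsGalois K L] (h : ¬ p ∣ Module.finrank K L) :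
    IsMaximalOrder (ringOfInts p K) (assocOrder p K L) := by
  have h1 := isDedekindDomain_ringOfInts p K
  have h2 := isFractionRing_ringOfInts p K
  have h3 : IsUnit ((Fintype.card (L ≃ₐ[K] L) : ℕ) : ringOfInts p K) := by
    apply isUnit_natCast
    rwa [← Nat.card_eq_fintype_card, IsGalois.card_aut_eq_finrank]
  have h4 : assocOrder p K L = ordO (ringOfInts p K) := by
    ext a
    rw [mem_ordO]
    change (∀ x ∈ ringOfInts p L, act K L a x ∈ ringOfInts p L) ↔ _
    simp_rw [mem_ringOfInts_iff p K L]
    rfl
  rw [h4]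
  exact isMaximalOrder_ordO _ h3

end Pool.Agent.N839.HG
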