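import Mathlib
import Pool.Agent.N839.HG.Stmt
import Pool.Agent.N839.HG.Main

/-!
# From the bundled version to the statement
-/

set_option autoImplicit false

noncomputable section

namespace Pool.Agent.N839.HG.Stmt

variable {K L : Type*} [Field K] [Field L] [Algebra K L]

lemma galAct_eq (g : L ≃ₐ[K] L) (h : MonoidAlgebra L (lambdaG (L ≃ₐ[K] L))) :
    galAct g h = HG.galAct K L g h := rfl

lemma act_eq (h : MonoidAlgebra L (lambdaG (L ≃ₐ[K] L))) (x : L) :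
    act h x = HG.act K L h x := rfl

variable [FiniteDimensional K L]

lemma mem_H (h : MonoidAlgebra L (lambdaG (L ≃ₐ[K] L))) :
    h ∈ Hlambda L (L ≃ₐ[K] L) ↔ h ∈ HG.Hlambda K L := Iff.rfl

/-- a subring of `H_λ` from an order -/
def toSub (O : Subring K) {A : Set (MonoidAlgebra L (lambdaG (L ≃ₐ[K] L)))}
    (hA : IsOrder O (Hlambda L (L ≃ₐ[K] L)) A) : Subring (HG.Hlambda K L) where
  carrier := {h | (h : MonoidAlgebra L (lambdaG (L ≃ₐ[K] L))) ∈ A}
  mul_mem' := fun ha hb => hA.mul_mem _ ha _ hb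
  one_mem' := hA.one_mem
  zero_mem' := by
    have := hA.sub_mem _ hA.one_mem _ hA.one_mem
    rwa [sub_self] at this
  add_mem' := by
    intro a b ha hb
    have h0 := hA.sub_mem _ hA.one_mem _ hA.one_mem
    have := hA.sub_mem _ ha _ (hA.sub_mem _ h0 _ hb)
    simpa using this
  neg_mem' := by
    intro a ha
    have h0 := hA.sub_mem _ hA.one_mem _ hA.one_mem
    have := hA.sub_mem _ h0 _ ha
    simpa using this

lemma mem_toSub (O : Subring K) {A : Set (MonoidAlgebra L (lambdaG (L ≃ₐ[K] L)))}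
    (hA : IsOrder O (Hlambda L (L ≃ₐ[K] L)) A) (h : HG.Hlambda K L) :
    h ∈ toSub O hA ↔ (h : MonoidAlgebra L (lambdaG (L ≃ₐ[K] L))) ∈ A := Iff.rfl

lemma isOrder_toSub (O : Subring K) {A : Set (MonoidAlgebra L (lambdaG (L ≃ₐ[K] L)))}
    (hA : IsOrder O (Hlambda L (L ≃ₐ[K] L)) A) : HG.IsOrder O (toSub O hA) := by
  refine ⟨fun c hc a ha => hA.smul_mem c hc _ ha, ?_, ?_⟩
  · obtain ⟨S, hS, hSA, hAS⟩ := hA.fg
    refine ⟨Subtype.val ⁻¹' S, hS.preimage Subtype.val_injective.injOn, fun a ha => hSA ha, ?_⟩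
    intro a ha
    have h1 := hAS _ ha
    let f : HG.Hlambda K L →ₗ[O] MonoidAlgebra L (lambdaG (L ≃ₐ[K] L)) :=
      ((HG.Hlambda K L).val.toLinearMap).restrictScalars O
    have h2 : Submodule.span O S ≤ (Submodule.span O (Subtype.val ⁻¹' S)).map f := by
      rw [Submodule.span_le]
      intro s hs
      exact ⟨⟨s, hA.subset (hSA hs)⟩, Submodule.subset_span hs, rfl⟩
    obtain ⟨b, hb, hba⟩ := h2 h1
    have : b = a := Subtype.ext hba
    exact this ▸ hb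
  · rw [eq_top_iff]
    intro h _
    have h1 := hA.spans h.1 h.2
    let f : HG.Hlambda K L →ₗ[K] MonoidAlgebra L (lambdaG (L ≃ₐ[K] L)) :=
      (HG.Hlambda K L).val.toLinearMap
    have h2 : Submodule.span K A ≤
        (Submodule.span K ((toSub O hA : Set (HG.Hlambda K L)))).map f := by
      rw [Submodule.span_le]
      intro s hs
      exact ⟨⟨s, hA.subset hs⟩, Submodule.subset_span hs, rfl⟩
    obtain ⟨b, hb, hba⟩ := h2 h1
    have : b = h := Subtype.ext hba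
    exact this ▸ hb

lemma isOrder_of (O : Subring K) {Γ : Subring (HG.Hlambda K L)} (hΓ : HG.IsOrder O Γ) :
    IsOrder O (Hlambda L (L ≃ₐ[K] L)) (Subtype.val '' (Γ : Set (HG.Hlambda K L))) := by
  refine ⟨?_, ⟨1, Γ.one_mem, rfl⟩, ?_, ?_, ?_, ?_, ?_⟩
  · rintro _ ⟨a, _, rfl⟩
    exact a.2
  · rintro _ ⟨a, ha, rfl⟩ _ ⟨b, hb, rfl⟩
    exact ⟨a - b, Γ.sub_mem ha hb, rfl⟩
  · rintro _ ⟨a, ha, rfl⟩ _ ⟨b, hb, rfl⟩
    exact ⟨a * b, Γ.mul_mem ha hb, rfl⟩
  · rintro c hc _ ⟨a, ha, rfl⟩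
    exact ⟨c • a, hΓ.smul_mem c hc a ha, rfl⟩
  · obtain ⟨S, hS, hSΓ, hΓS⟩ := hΓ.fg
    refine ⟨Subtype.val '' S, hS.image _, Set.image_mono hSΓ, ?_⟩
    rintro _ ⟨a, ha, rfl⟩
    let f : HG.Hlambda K L →ₗ[O] MonoidAlgebra L (lambdaG (L ≃ₐ[K] L)) :=
      ((HG.Hlambda K L).val.toLinearMap).restrictScalars O
    have h1 : f a ∈ (Submodule.span O S).map f := ⟨a, hΓS a ha, rfl⟩
    rw [Submodule.map_span] at h1
    exact h1
  · intro h hh
    let f : HG.Hlambda K L →ₗ[K] MonoidAlgebra L (lambdaG (L ≃ₐ[K] L)) :=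
      (HG.Hlambda K L).val.toLinearMap
    have h0 : (⟨h, hh⟩ : HG.Hlambda K L) ∈ Submodule.span K (Γ : Set (HG.Hlambda K L)) := by
      rw [hΓ.span_eq_top]; trivial
    have h1 : f ⟨h, hh⟩ ∈ (Submodule.span K (Γ : Set (HG.Hlambda K L))).map f := ⟨_, h0, rfl⟩
    rw [Submodule.map_span] at h1
    exact h1

theorem main (p : ℕ) [Fact p.Prime]
    (K L : Type*) [Field K] [Field L] [Algebra ℚ_[p] K] [FiniteDimensional ℚ_[p] K]
    [Algebra ℚ_[p] L] [Algebra K L] [IsScalarTower ℚ_[p] K L] [FiniteDimensional K L]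
    [IsGalois K L] (h : ¬ p ∣ Module.finrank K L) :
    IsMaximalOrder (ringOfInts p K) (Hlambda L (L ≃ₐ[K] L)) (assocOrder p L (L ≃ₐ[K] L)) := by
  have hm := HG.main p K L h
  have heq : assocOrder p L (L ≃ₐ[K] L) =
      Subtype.val '' (HG.assocOrder p K L : Set (HG.Hlambda K L)) := by
    ext a
    constructor
    · rintro ⟨ha, hx⟩
      exact ⟨⟨a, ha⟩, hx, rfl⟩
    · rintro ⟨b, hb, rfl⟩
      exact ⟨b.2, hb⟩
  refine ⟨?_, ?_⟩
  · rw [heq]
    exact isOrder_of _ hm.isOrder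
  · intro A' hA' hle
    have h1 := hm.eq_of_le (toSub _ hA') (isOrder_toSub _ hA') (fun a ha => hle ⟨a.2, ha⟩)
    refine Set.Subset.antisymm ?_ hle
    intro a ha
    have h2 : (⟨a, hA'.subset ha⟩ : HG.Hlambda K L) ∈ toSub _ hA' := ha
    rw [h1] at h2
    exact ⟨hA'.subset ha, h2⟩

end Pool.Agent.N839.HG.Stmt
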